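import Mathlib

set_option autoImplicit false

namespace Pool.Agent.Results.MP_7a7a2a_an.ArmijoJamming

open Filter Topology Set
open scoped InnerProductSpace Gradient

variable {E : Type*} [NormedAddCommGroup E] [InnerProductSpace ℝ E]

/-- `p` is a nearest point of the set `K` to the point `w`. -/
def IsProj (K : Set E) (w p : E) : Prop :=
  p ∈ K ∧ ∀ q ∈ K, dist w p ≤ dist w q

/-- The Bouligand tangent cone of `X` at `x`. -/
def tangentCone (X : Set E) (x : E) : Set E :=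
  {v | ∃ (t : ℕ → ℝ) (u : ℕ → E), (∀ k, 0 < t k) ∧ Tendsto t atTop (𝓝 0) ∧
    Tendsto u atTop (𝓝 v) ∧ ∀ k, x + t k • u k ∈ X}

/-- `x` is stationary for the problem of minimising `f` over `X`. -/
def Stationary [CompleteSpace E] (X : Set E) (f : E → ℝ) (x : E) : Prop :=
  x ∈ X ∧ ∀ v ∈ tangentCone X x, 0 ≤ ⟪∇ f x, v⟫_ℝ

/-- `(x, y, f)` is an apocalypse on `X`: `f` is continuously differentiable on a neighbourhood of
`X`, the points `y k` of `X` converge to `x ∈ X`, the norms of the projections of `-∇ f (y k)` on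
the tangent cones at `y k` tend to zero, and `x` is not stationary. -/
def Apocalypse [CompleteSpace E] (X : Set E) (x : E) (y : ℕ → E) (f : E → ℝ) : Prop :=
  (∃ U : Set E, IsOpen U ∧ X ⊆ U ∧ ContDiffOn ℝ 1 f U) ∧ x ∈ X ∧ (∀ k, y k ∈ X) ∧
    Tendsto y atTop (𝓝 x) ∧
    (∃ v : ℕ → E, (∀ k, IsProj (tangentCone X (y k)) (-∇ f (y k)) (v k)) ∧
      Tendsto (fun k => ‖v k‖) atTop (𝓝 0)) ∧
    ¬ Stationary X f x

/-- No apocalypse exists on `X`. -/
def ApocalypseFree [CompleteSpace E] (X : Set E) : Prop :=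
  ∀ (x : E) (y : ℕ → E) (f : E → ℝ), ¬ Apocalypse X x y f

/-- `x` is a sequence of iterates of P²GD with Armijo backtracking with parameters `α`, `β`, `c`:
at step `k`, `v` is a projection of `-∇ f (x k)` on the tangent cone at `x k`, `y i` is the selected
projection on `X` of the trial point with step size `α * β ^ i`, and `j` is the first index for
which the sufficient decrease condition holds. -/
def IsP2GD [CompleteSpace E] (X : Set E) (f : E → ℝ) (α β c : ℝ) (x : ℕ → E) : Prop :=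
  x 0 ∈ X ∧ ∀ k, ∃ (v : E) (y : ℕ → E) (j : ℕ),
    IsProj (tangentCone X (x k)) (-∇ f (x k)) v ∧
    (∀ i, IsProj X (x k + (α * β ^ i) • v) (y i)) ∧
    f (y j) ≤ f (x k) - c * (α * β ^ j) * ‖v‖ ^ 2 ∧
    (∀ i < j, ¬ f (y i) ≤ f (x k) - c * (α * β ^ i) * ‖v‖ ^ 2) ∧
    x (k + 1) = y j

/-! ### Closed convex sets are apocalypse-free -/

theorem cone_smul {X : Set E} {x v : E} (hv : v ∈ tangentCone X x) {t : ℝ} (ht : 0 < t) :
    t • v ∈ tangentCone X x := by
  obtain ⟨s, u, hs, hs0, hu, hX⟩ := hv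
  refine ⟨fun k => s k / t, fun k => t • u k, fun k => div_pos (hs k) ht, ?_, ?_, ?_⟩
  · simpa using hs0.div_const t
  · exact hu.const_smul t
  · intro k
    have : (s k / t) • t • u k = s k • u k := by
      rw [smul_smul, div_mul_cancel₀ _ ht.ne']
    rw [this]
    exact hX k

theorem convex_mem_cone {X : Set E} (hX : Convex ℝ X) {x y : E} (hx : x ∈ X) (hy : y ∈ X) :
    y - x ∈ tangentCone X x := by
  refine ⟨fun k => 1 / ((k : ℝ) + 1), fun _ => y - x, fun k => by positivity,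
    tendsto_one_div_add_atTop_nhds_zero_nat, tendsto_const_nhds, fun k => ?_⟩
  have h1 : (0 : ℝ) ≤ 1 / ((k : ℝ) + 1) := by positivity
  have h2 : 1 / ((k : ℝ) + 1) ≤ 1 := by
    rw [div_le_one (by positivity)]
    have : (0 : ℝ) ≤ k := Nat.cast_nonneg k
    linarith
  exact hX.add_smul_sub_mem hx hy ⟨h1, h2⟩

theorem zero_mem_cone {X : Set E} {x : E} (hx : x ∈ X) : (0 : E) ∈ tangentCone X x :=
  ⟨fun k => 1 / ((k : ℝ) + 1), fun _ => 0, fun k => by positivity,
    tendsto_one_div_add_atTop_nhds_zero_nat, tendsto_const_nhds, fun k => by simpa using hx⟩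

/-- The norm of a projection on the tangent cone bounds the directional values. -/
theorem inner_le_of_isProj {X : Set E} {x w v u : E}
    (hv : IsProj (tangentCone X x) w v) (hu : u ∈ tangentCone X x) :
    ⟪w, u⟫_ℝ ≤ ‖v‖ * ‖u‖ := by
  have key : ∀ q ∈ tangentCone X x, ‖w - v‖ ^ 2 ≤ ‖w - q‖ ^ 2 := by
    intro q hq
    have := hv.2 q hq
    rw [dist_eq_norm, dist_eq_norm] at this
    exact pow_le_pow_left₀ (norm_nonneg _) this 2
  have expand : ∀ a : E, ‖w - a‖ ^ 2 = ‖w‖ ^ 2 - 2 * ⟪w, a⟫_ℝ + ‖a‖ ^ 2 := fun a =>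
    norm_sub_sq_real w a
  -- `⟪w, v⟫ = ‖v‖²`
  have hwv : ⟪w, v⟫_ℝ ≤ ‖v‖ ^ 2 := by
    by_contra hcon
    push Not at hcon
    have hpos : 0 ≤ ‖v‖ ^ 2 := by positivity
    by_cases hv0 : ‖v‖ = 0
    · have : v = 0 := norm_eq_zero.mp hv0
      rw [this] at hcon
      simp at hcon
    · have hvp : 0 < ‖v‖ ^ 2 := by positivity
      have ht : 0 < ⟪w, v⟫_ℝ / ‖v‖ ^ 2 := div_pos (lt_trans hvp hcon) hvp
      have h1 := key _ (cone_smul hv.1 ht)
      rw [expand, expand, inner_smul_right, norm_smul, mul_pow, Real.norm_eq_abs, sq_abs] at h1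
      have h2 : ⟪w, v⟫_ℝ / ‖v‖ ^ 2 * ‖v‖ ^ 2 = ⟪w, v⟫_ℝ := div_mul_cancel₀ _ hvp.ne'
      set t := ⟪w, v⟫_ℝ / ‖v‖ ^ 2 with htdef
      have h3 : 1 < t := by
        rw [htdef, one_lt_div hvp]; exact hcon
      nlinarith [mul_pos (sub_pos.mpr h3) (sub_pos.mpr h3)]
  by_cases hneg : ⟪w, u⟫_ℝ ≤ 0
  · exact hneg.trans (by positivity)
  push Not at hneg
  have hu0 : 0 < ‖u‖ := by
    rw [norm_pos_iff]
    rintro rfl
    simp at hneg
  have hup : 0 < ‖u‖ ^ 2 := by positivity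
  have ht : 0 < ⟪w, u⟫_ℝ / ‖u‖ ^ 2 := div_pos hneg hup
  have h1 := key _ (cone_smul hu ht)
  rw [expand, expand, inner_smul_right, norm_smul, mul_pow, Real.norm_eq_abs, sq_abs] at h1
  have h2 : ⟪w, u⟫_ℝ / ‖u‖ ^ 2 * ‖u‖ ^ 2 = ⟪w, u⟫_ℝ := div_mul_cancel₀ _ hup.ne'
  set t := ⟪w, u⟫_ℝ / ‖u‖ ^ 2 with htdef
  have h4 : t * ⟪w, u⟫_ℝ ≤ ‖v‖ ^ 2 := by nlinarith
  have h5 : ⟪w, u⟫_ℝ ^ 2 ≤ (‖v‖ * ‖u‖) ^ 2 := by
    have : t * ⟪w, u⟫_ℝ * ‖u‖ ^ 2 ≤ ‖v‖ ^ 2 * ‖u‖ ^ 2 :=
      mul_le_mul_of_nonneg_right h4 hup.le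
    calc ⟪w, u⟫_ℝ ^ 2 = t * ⟪w, u⟫_ℝ * ‖u‖ ^ 2 := by
          rw [mul_right_comm, h2]; ring
      _ ≤ ‖v‖ ^ 2 * ‖u‖ ^ 2 := this
      _ = (‖v‖ * ‖u‖) ^ 2 := by ring
  exact le_of_sq_le_sq h5 (by positivity)

theorem gradient_continuousAt [CompleteSpace E] {f : E → ℝ} {U : Set E} (hU : IsOpen U)
    (hf : ContDiffOn ℝ 1 f U) {x : E} (hx : x ∈ U) : ContinuousAt (fun y => ∇ f y) x := by
  have h1 : ContDiffAt ℝ 1 f x := hf.contDiffAt (hU.mem_nhds hx)
  have h2 : ContinuousAt (fderiv ℝ f) x := h1.continuousAt_fderiv (by norm_num)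
  have h3 : (fun y => ∇ f y) = fun y => (InnerProductSpace.toDual ℝ E).symm (fderiv ℝ f y) := rfl
  rw [h3]
  exact (InnerProductSpace.toDual ℝ E).symm.continuous.continuousAt.comp h2

theorem apocalypseFree_of_convex [CompleteSpace E] {X : Set E} (hX : Convex ℝ X) :
    ApocalypseFree X := by
  rintro x y f ⟨⟨U, hU, hXU, hf⟩, hx, hy, hyx, ⟨v, hv, hv0⟩, hns⟩
  apply hns
  refine ⟨hx, ?_⟩
  have hgrad : Tendsto (fun k => ∇ f (y k)) atTop (𝓝 (∇ f x)) :=
    (gradient_continuousAt hU hf (hXU hx)).tendsto.comp hyx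
  have hmain : ∀ z ∈ X, ⟪-∇ f x, z - x⟫_ℝ ≤ 0 := by
    intro z hz
    have h1 : ∀ k, ⟪-∇ f (y k), z - y k⟫_ℝ ≤ ‖v k‖ * ‖z - y k‖ := fun k =>
      inner_le_of_isProj (hv k) (convex_mem_cone hX (hy k) hz)
    have h2 : Tendsto (fun k => ⟪-∇ f (y k), z - y k⟫_ℝ) atTop (𝓝 ⟪-∇ f x, z - x⟫_ℝ) :=
      hgrad.neg.inner (tendsto_const_nhds.sub hyx)
    have h3 : Tendsto (fun k => ‖v k‖ * ‖z - y k‖) atTop (𝓝 (0 * ‖z - x‖)) :=
      hv0.mul (tendsto_const_nhds.sub hyx).norm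
    rw [zero_mul] at h3
    exact le_of_tendsto_of_tendsto' h2 h3 h1
  rintro w ⟨t, u, ht, ht0, hu, hX'⟩
  have h1 : ∀ k, 0 ≤ ⟪∇ f x, u k⟫_ℝ := by
    intro k
    have h := hmain _ (hX' k)
    rw [add_sub_cancel_left, inner_neg_left, inner_smul_right] at h
    have h' : 0 ≤ t k * ⟪∇ f x, u k⟫_ℝ := by linarith
    exact nonneg_of_mul_nonneg_right h' (ht k)
  have h2 : Tendsto (fun k => ⟪∇ f x, u k⟫_ℝ) atTop (𝓝 ⟪∇ f x, w⟫_ℝ) :=
    tendsto_const_nhds.inner hu
  exact ge_of_tendsto' h2 h1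

/-! ### The wedge -/

/-- Three dimensional Euclidean space. -/
abbrev E3 : Type := EuclideanSpace ℝ (Fin 3)

/-- The truncated wedge. -/
def wedge (R : ℝ) : Set E3 := {p | |p 1| / 2 ≤ p 2 ∧ p 2 ≤ R ∧ |p 0| ≤ R}

/-- The vector with given coordinates. -/
def vec (a b d : ℝ) : E3 := !₂[a, b, d]

@[simp] theorem vec_zero (a b d : ℝ) : vec a b d 0 = a := rfl
@[simp] theorem vec_one (a b d : ℝ) : vec a b d 1 = b := rfl
@[simp] theorem vec_two (a b d : ℝ) : vec a b d 2 = d := rfl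

theorem ext3 {p q : E3} (h0 : p 0 = q 0) (h1 : p 1 = q 1) (h2 : p 2 = q 2) : p = q := by
  ext i
  fin_cases i
  · exact h0
  · exact h1
  · exact h2

theorem inner3 (p q : E3) : ⟪p, q⟫_ℝ = p 0 * q 0 + p 1 * q 1 + p 2 * q 2 := by
  rw [PiLp.inner_apply, Fin.sum_univ_three]
  simp [mul_comm]

theorem normsq3 (p : E3) : ‖p‖ ^ 2 = p 0 ^ 2 + p 1 ^ 2 + p 2 ^ 2 := by
  rw [← real_inner_self_eq_norm_sq, inner3]
  ring

theorem wedge_closed (R : ℝ) : IsClosed (wedge R) := by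
  have h0 : Continuous fun p : E3 => p 0 := by fun_prop
  have h1 : Continuous fun p : E3 => p 1 := by fun_prop
  have h2 : Continuous fun p : E3 => p 2 := by fun_prop
  have e : wedge R = {p : E3 | |p 1| / 2 ≤ p 2} ∩ ({p : E3 | p 2 ≤ R} ∩ {p : E3 | |p 0| ≤ R}) := rfl
  rw [e]
  exact (isClosed_le (h1.abs.div_const 2) h2).inter
    ((isClosed_le h2 continuous_const).inter (isClosed_le h0.abs continuous_const))

theorem wedge_bounded (R : ℝ) : Bornology.IsBounded (wedge R) := by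
  refine (Metric.isBounded_closedBall (x := (0 : E3)) (r := 3 * |R|)).subset ?_
  intro p hp
  obtain ⟨h1, h2, h3⟩ := hp
  rw [mem_closedBall_zero_iff]
  have hR : 0 ≤ R := (abs_nonneg _).trans h3
  rw [abs_of_nonneg hR]
  have ha1 := abs_nonneg (p 1)
  apply le_of_sq_le_sq _ (by positivity)
  rw [normsq3]
  have e0 : p 0 ^ 2 ≤ R ^ 2 := by
    rw [← sq_abs]; exact pow_le_pow_left₀ (abs_nonneg _) h3 2
  have e1 : p 1 ^ 2 ≤ (2 * R) ^ 2 := by
    rw [← sq_abs]; exact pow_le_pow_left₀ (abs_nonneg _) (by linarith) 2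
  have e2 : p 2 ^ 2 ≤ R ^ 2 := pow_le_pow_left₀ (by linarith) h2 2
  nlinarith

theorem wedge_compact (R : ℝ) : IsCompact (wedge R) :=
  Metric.isCompact_of_isClosed_isBounded (wedge_closed R) (wedge_bounded R)

theorem wedge_convex (R : ℝ) : Convex ℝ (wedge R) := by
  intro p hp q hq a b ha hb hab
  obtain ⟨h1, h2, h3⟩ := hp
  obtain ⟨g1, g2, g3⟩ := hq
  have e : ∀ i, (a • p + b • q) i = a * p i + b * q i := fun i => by simp
  refine ⟨?_, ?_, ?_⟩
  · rw [e, e]
    calc |a * p 1 + b * q 1| / 2 ≤ (a * |p 1| + b * |q 1|) / 2 := by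
          gcongr
          calc |a * p 1 + b * q 1| ≤ |a * p 1| + |b * q 1| := abs_add_le _ _
            _ = a * |p 1| + b * |q 1| := by rw [abs_mul, abs_mul, abs_of_nonneg ha, abs_of_nonneg hb]
      _ ≤ a * p 2 + b * q 2 := by nlinarith
  · rw [e]
    calc a * p 2 + b * q 2 ≤ a * R + b * R := by gcongr
      _ = R := by rw [← add_mul, hab, one_mul]
  · rw [e]
    calc |a * p 0 + b * q 0| ≤ |a * p 0| + |b * q 0| := abs_add_le _ _
      _ = a * |p 0| + b * |q 0| := by rw [abs_mul, abs_mul, abs_of_nonneg ha, abs_of_nonneg hb]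
      _ ≤ a * R + b * R := by gcongr
      _ = R := by rw [← add_mul, hab, one_mul]

/-- Variational criterion for a nearest point. -/
theorem isProj_of_inner {K : Set E} {w p : E} (hp : p ∈ K)
    (h : ∀ q ∈ K, ⟪w - p, q - p⟫_ℝ ≤ 0) : IsProj K w p := by
  refine ⟨hp, fun q hq => ?_⟩
  rw [dist_eq_norm, dist_eq_norm]
  apply le_of_sq_le_sq _ (norm_nonneg _)
  have e : w - q = (w - p) - (q - p) := by abel
  have := norm_sub_sq_real (w - p) (q - p)
  rw [e, this]
  nlinarith [h q hq, sq_nonneg ‖q - p‖]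

theorem sign_sq {σ : ℝ} (hσ : σ = 1 ∨ σ = -1) : σ * σ = 1 := by
  rcases hσ with rfl | rfl <;> norm_num

theorem sign_abs {σ : ℝ} (hσ : σ = 1 ∨ σ = -1) (b : ℝ) (hb : 0 ≤ b) : |σ * b| = b := by
  rcases hσ with rfl | rfl
  · rw [one_mul, abs_of_nonneg hb]
  · rw [neg_one_mul, abs_neg, abs_of_nonneg hb]

theorem sign_le {σ : ℝ} (hσ : σ = 1 ∨ σ = -1) (b : ℝ) : σ * b ≤ |b| := by
  rcases hσ with rfl | rfl
  · rw [one_mul]; exact le_abs_self b
  · rw [neg_one_mul]; exact neg_le_abs b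

theorem cone_halfspace {R a r σ : ℝ} (hσ : σ = 1 ∨ σ = -1) {u : E3}
    (hu : u ∈ tangentCone (wedge R) (vec a (σ * r) (r / 2))) : σ * u 1 / 2 ≤ u 2 := by
  obtain ⟨t, w, ht, -, hw, hX⟩ := hu
  have h1 : ∀ k, σ * w k 1 / 2 ≤ w k 2 := by
    intro k
    obtain ⟨g1, -, -⟩ := hX k
    have e1 : (vec a (σ * r) (r / 2) + t k • w k) 1 = σ * r + t k * w k 1 := by simp
    have e2 : (vec a (σ * r) (r / 2) + t k • w k) 2 = r / 2 + t k * w k 2 := by simp
    rw [e1, e2] at g1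
    have g2 := sign_le hσ (σ * r + t k * w k 1)
    have g3 : σ * (σ * r + t k * w k 1) = r + t k * (σ * w k 1) := by
      have := sign_sq hσ
      linear_combination r * this
    rw [g3] at g2
    have g4 : t k * (σ * w k 1 / 2) ≤ t k * w k 2 := by linarith
    exact le_of_mul_le_mul_left g4 (ht k)
  have c1 : Continuous fun p : E3 => σ * p 1 / 2 := by fun_prop
  have c2 : Continuous fun p : E3 => p 2 := by fun_prop
  exact le_of_tendsto_of_tendsto' ((c1.tendsto u).comp hw) ((c2.tendsto u).comp hw) h1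

theorem mem_face {R a r σ : ℝ} (hσ : σ = 1 ∨ σ = -1) (hr : 0 ≤ r) (hrR : r ≤ R) (ha : 0 ≤ a)
    (haR : a ≤ R) : vec a (σ * r) (r / 2) ∈ wedge R := by
  refine ⟨?_, ?_, ?_⟩
  · rw [vec_one, vec_two, sign_abs hσ r hr]
  · rw [vec_two]; linarith
  · rw [vec_zero, abs_of_nonneg ha]; exact haR

theorem proj_cone {R a r σ ε : ℝ} (hσ : σ = 1 ∨ σ = -1) (hr : 0 < r) (hrR : r ≤ R) (ha : 0 ≤ a)
    (hε : 0 ≤ ε) (haR : a + ε * r ≤ R) :
    IsProj (tangentCone (wedge R) (vec a (σ * r) (r / 2))) (vec ε 0 (-1))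
      (vec ε (-σ * (2 / 5)) (-1 / 5)) := by
  have hεr : 0 ≤ ε * r := mul_nonneg hε hr.le
  have hss := sign_sq hσ
  apply isProj_of_inner
  · have hx : vec a (σ * r) (r / 2) ∈ wedge R := mem_face hσ hr.le hrR ha (by linarith)
    have hy : vec (a + ε * r) (σ * (3 / 5 * r)) (3 / 5 * r / 2) ∈ wedge R :=
      mem_face hσ (by linarith) (by linarith) (by linarith) haR
    have h1 := convex_mem_cone (wedge_convex R) hx hy
    have h2 := cone_smul h1 (inv_pos.mpr hr)
    convert h2 using 1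
    apply ext3
    · simp; field_simp
    · simp; field_simp; ring
    · simp; field_simp; ring
  · intro u hu
    have h1 := cone_halfspace hσ hu
    rw [inner3]
    simp only [PiLp.sub_apply, vec_zero, vec_one, vec_two]
    nlinarith

theorem proj_trial_in {R a r σ ε t : ℝ} (hσ : σ = 1 ∨ σ = -1) (hrR : r ≤ R)
    (ha : 0 ≤ a) (hε : 0 ≤ ε) (ht : 0 ≤ t) (haR : a + ε * t ≤ R) (h : 2 / 5 * t ≤ r) :
    IsProj (wedge R) (vec a (σ * r) (r / 2) + t • vec ε (-σ * (2 / 5)) (-1 / 5))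
      (vec (a + ε * t) (σ * (r - 2 / 5 * t)) ((r - 2 / 5 * t) / 2)) := by
  have e : vec a (σ * r) (r / 2) + t • vec ε (-σ * (2 / 5)) (-1 / 5) =
      vec (a + ε * t) (σ * (r - 2 / 5 * t)) ((r - 2 / 5 * t) / 2) := by
    apply ext3
    · simp; ring
    · simp; ring
    · simp; ring
  have hεt : 0 ≤ ε * t := mul_nonneg hε ht
  rw [e]
  refine isProj_of_inner (mem_face hσ (by linarith) (by linarith) (by linarith) haR) ?_
  intro q _
  simp

theorem proj_trial_out {R a r σ ε t : ℝ} (hσ : σ = 1 ∨ σ = -1) (hr : 0 ≤ r)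
    (ha : 0 ≤ a) (hε : 0 ≤ ε) (ht : 0 ≤ t) (htR : t ≤ R) (haR : a + ε * t ≤ R)
    (h : r ≤ 2 / 5 * t) :
    IsProj (wedge R) (vec a (σ * r) (r / 2) + t • vec ε (-σ * (2 / 5)) (-1 / 5))
      (vec (a + ε * t) (-σ * (3 / 5 * (2 / 5 * t - r))) (3 / 5 * (2 / 5 * t - r) / 2)) := by
  have hσ' : -σ = 1 ∨ -σ = -1 := by
    rcases hσ with rfl | rfl
    · right; rfl
    · left; norm_num
  have hss := sign_sq hσ
  have hεt : 0 ≤ ε * t := mul_nonneg hε ht
  refine isProj_of_inner (mem_face hσ' (by linarith) (by linarith) (by linarith) haR) ?_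
  intro q hq
  obtain ⟨h1, -, -⟩ := hq
  have h2 := sign_le hσ' (q 1)
  have h3 : 0 ≤ q 2 + σ * q 1 / 2 := by linarith
  rw [inner3]
  simp only [PiLp.sub_apply, PiLp.add_apply, PiLp.smul_apply, smul_eq_mul, vec_zero, vec_one,
    vec_two]
  have h4 : 0 ≤ (2 / 5 * t - r) * (q 2 + σ * q 1 / 2) := mul_nonneg (by linarith) h3
  have key : (a + t * ε - (a + ε * t)) * (q 0 - (a + ε * t)) +
      (σ * r + t * (-σ * (2 / 5)) - -σ * (3 / 5 * (2 / 5 * t - r))) *
        (q 1 - -σ * (3 / 5 * (2 / 5 * t - r))) +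
      (r / 2 + t * (-1 / 5) - 3 / 5 * (2 / 5 * t - r) / 2) *
        (q 2 - 3 / 5 * (2 / 5 * t - r) / 2) =
      -(4 / 5) * ((2 / 5 * t - r) * (q 2 + σ * q 1 / 2)) := by
    linear_combination (-(2 / 5) * (2 / 5 * t - r) * (3 / 5 * (2 / 5 * t - r))) * hss
  rw [key]
  linarith

/-! ### The iteration -/

theorem vec_continuous : Continuous fun p : ℝ × ℝ × ℝ => vec p.1 p.2.1 p.2.2 := by
  unfold vec
  refine (PiLp.continuous_toLp 2 _).comp (continuous_pi fun i => ?_)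
  fin_cases i
  · simpa using continuous_fst
  · exact continuous_fst.comp continuous_snd
  · exact continuous_snd.comp continuous_snd

theorem grad_lin (g x : E3) : ∇ (fun p : E3 => ⟪g, p⟫_ℝ) x = g := by
  apply HasGradientAt.gradient
  rw [hasGradientAt_iff_hasFDerivAt]
  exact (innerSL ℝ g).hasFDerivAt

/-- The sufficient decrease condition at a trial point beyond the edge. -/
theorem armijo_iff {a r σ ε t c c' : ℝ} (hσ : σ = 1 ∨ σ = -1)
    (hc' : c' = c - 5 * (1 - c) * ε ^ 2) :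
    (⟪vec (-ε) 0 1, vec (a + ε * t) (-σ * (3 / 5 * (2 / 5 * t - r)))
        (3 / 5 * (2 / 5 * t - r) / 2)⟫_ℝ ≤
      ⟪vec (-ε) 0 1, vec a (σ * r) (r / 2)⟫_ℝ -
        c * t * ‖vec ε (-σ * (2 / 5)) (-1 / 5)‖ ^ 2) ↔
    (5 * c' + 3) * (2 / 5 * t) ≤ 8 * r := by
  have hss := sign_sq hσ
  rw [inner3, inner3, normsq3]
  simp only [vec_zero, vec_one, vec_two]
  have e : (-σ * (2 / 5)) ^ 2 = 4 / 25 := by linear_combination (4 / 25) * hss
  rw [e, hc']
  constructor
  · intro h; nlinarith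
  · intro h; nlinarith

theorem result (α β c : ℝ) (hα : 0 < α) (hβ : 0 < β) (hβ1 : β < 1) (hc : 0 < c) (hc1 : c < 1) :
    ∃ (X : Set E3) (g : E3) (x : ℕ → E3) (z : E3),
      X.Nonempty ∧ IsCompact X ∧ Convex ℝ X ∧ ApocalypseFree X ∧
      IsP2GD X (fun p => ⟪g, p⟫_ℝ) α β c x ∧
      Tendsto x atTop (𝓝 z) ∧ z ∈ X ∧ ¬ Stationary X (fun p => ⟪g, p⟫_ℝ) z := by
  -- parameters
  set ε : ℝ := c / 5 with hεdef
  have hε : 0 < ε := by positivity
  have hε1 : ε < 1 := by rw [hεdef]; linarith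
  set c' : ℝ := c - 5 * (1 - c) * ε ^ 2 with hc'def
  have hc'0 : 0 < c' := by
    rw [hc'def, hεdef]
    have : c - 5 * (1 - c) * (c / 5) ^ 2 = c * (1 - (1 - c) * c / 5) := by ring
    rw [this]
    apply mul_pos hc
    nlinarith
  have hc'1 : c' < 1 := by
    rw [hc'def]
    have : 0 ≤ 5 * (1 - c) * ε ^ 2 := by
      have : 0 < 1 - c := by linarith
      positivity
    linarith
  have hD : 0 < 5 * c' + 3 := by linarith
  set θ : ℝ := 3 * (1 - c') / (5 * c' + 3) with hθdef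
  have hθ0 : 0 < θ := div_pos (by linarith) hD
  have hθ1 : θ < 1 := by rw [hθdef, div_lt_one hD]; linarith
  have hθD : (5 * c' + 3) * θ = 3 * (1 - c') := by
    rw [hθdef]; field_simp
  have hex : ∃ n : ℕ, β ^ n ≤ θ := by
    obtain ⟨n, hn⟩ := exists_pow_lt_of_lt_one hθ0 hβ1
    exact ⟨n, hn.le⟩
  classical
  obtain ⟨m, hm1, hm2⟩ : ∃ m : ℕ, β ^ (m + 1) ≤ θ ∧ θ < β ^ m := by
    have h1 := Nat.find_spec hex
    have h0 : Nat.find hex ≠ 0 := by
      intro h
      rw [h, pow_zero] at h1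
      linarith
    obtain ⟨m, hm⟩ := Nat.exists_eq_succ_of_ne_zero h0
    refine ⟨m, ?_, ?_⟩
    · rw [hm] at h1; exact h1
    · have := Nat.find_min hex (m := m) (by rw [hm]; exact Nat.lt_succ_self m)
      exact not_le.mp this
  set n : ℕ := m + 1 with hn
  set q : ℝ := β ^ n with hq
  have hq0 : 0 < q := pow_pos hβ n
  have hq1 : q < 1 := lt_of_le_of_lt hm1 hθ1
  have hqβ : q = β * β ^ m := by rw [hq, hn, pow_succ]; ring
  set s : ℝ := 1 + 5 * q / 3 with hs
  have hs1 : 1 < s := by rw [hs]; linarith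
  have hs_acc : (5 * c' + 3) * s ≤ 8 := by
    have : (5 * c' + 3) * q ≤ 3 * (1 - c') := by
      rw [← hθD]; exact mul_le_mul_of_nonneg_left hm1 hD.le
    rw [hs]; nlinarith
  have hs_rej : 8 * β < (5 * c' + 3) * s := by
    have h1 : (5 * c' + 3) * θ < (5 * c' + 3) * β ^ m := mul_lt_mul_of_pos_left hm2 hD
    rw [hθD] at h1
    have h2 : β * (3 * (1 - c')) < β * ((5 * c' + 3) * β ^ m) := mul_lt_mul_of_pos_left h1 hβ
    have h3 : (5 * c' + 3) * q = β * ((5 * c' + 3) * β ^ m) := by rw [hqβ]; ring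
    have h4 : 0 < (5 * c' + 3) * (1 - β) := mul_pos hD (by linarith)
    have h5 : (5 * c' + 3) * s = (5 * c' + 3) + 5 / 3 * ((5 * c' + 3) * q) := by rw [hs]; ring
    rw [h5, h3]
    nlinarith
  set ρ : ℝ := 2 * α / (5 * s) with hρ
  have hρ0 : 0 < ρ := by positivity
  have hρs : s * ρ = 2 / 5 * α := by rw [hρ]; field_simp
  have hρα : ρ ≤ α := by nlinarith
  have h1q : 0 < 1 - q := by linarith
  set R : ℝ := 2 * α / (1 - q) with hR
  have hRq : R * (1 - q) = 2 * α := by rw [hR]; field_simp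
  have hαR : 2 * α ≤ R := by
    rw [hR, le_div_iff₀ h1q]; nlinarith
  set r : ℕ → ℝ := fun k => ρ * q ^ k with hr
  set σ : ℕ → ℝ := fun k => (-1) ^ k with hσdef
  set a : ℕ → ℝ := fun k => ε * α * (1 - q ^ k) / (1 - q) with ha
  have hσ : ∀ k, σ k = 1 ∨ σ k = -1 := fun k => neg_one_pow_eq_or ℝ k
  have hqk0 : ∀ k : ℕ, 0 < q ^ k := fun k => pow_pos hq0 k
  have hqk1 : ∀ k : ℕ, q ^ k ≤ 1 := fun k => pow_le_one₀ hq0.le hq1.le
  have hr0 : ∀ k, 0 < r k := fun k => mul_pos hρ0 (hqk0 k)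
  have hrρ : ∀ k, r k ≤ ρ := fun k => by
    have := mul_le_mul_of_nonneg_left (hqk1 k) hρ0.le
    rw [mul_one] at this
    exact this
  have ha0 : ∀ k, 0 ≤ a k := fun k => by
    have := hqk1 k
    exact div_nonneg (mul_nonneg (by positivity) (by linarith)) h1q.le
  have haR : ∀ k t, 0 ≤ t → t ≤ α → a k + ε * t ≤ R := by
    intro k t ht htα
    have h1 : a k ≤ α / (1 - q) := by
      apply div_le_div_of_nonneg_right _ h1q.le
      have h2 := hqk0 k
      have h3 := hqk1 k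
      have h4 : ε * α * (1 - q ^ k) ≤ ε * α * 1 :=
        mul_le_mul_of_nonneg_left (by linarith) (by positivity)
      have h5 : ε * α ≤ 1 * α := mul_le_mul_of_nonneg_right hε1.le hα.le
      linarith
    have h2 : R = α / (1 - q) + α / (1 - q) := by rw [hR]; ring
    have h3 : α ≤ α / (1 - q) := by
      rw [le_div_iff₀ h1q]; nlinarith
    have h4 : ε * t ≤ 1 * t := mul_le_mul_of_nonneg_right hε1.le ht
    linarith
  set x : ℕ → E3 := fun k => vec (a k) (σ k * r k) (r k / 2) with hx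
  set z : E3 := vec (ε * α / (1 - q)) 0 0 with hz
  have hzε : ε * α / (1 - q) < R := by
    rw [hR]
    apply div_lt_div_of_pos_right _ h1q
    nlinarith
  have hz0 : 0 ≤ ε * α / (1 - q) := by positivity
  have hzX : z ∈ wedge R := by
    refine ⟨?_, ?_, ?_⟩
    · rw [hz, vec_one, vec_two]; simp
    · rw [hz, vec_two]; linarith
    · rw [hz, vec_zero, abs_of_nonneg hz0]; exact hzε.le
  have hneg : -(vec (-ε) 0 1) = vec ε 0 (-1) := by
    apply ext3 <;> simp
  refine ⟨wedge R, vec (-ε) 0 1, x, z, ⟨z, hzX⟩, wedge_compact R, wedge_convex R,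
    apocalypseFree_of_convex (wedge_convex R), ⟨?_, ?_⟩, ?_, hzX, ?_⟩
  · -- initial point
    exact mem_face (hσ 0) (hr0 0).le (by linarith [hrρ 0]) (ha0 0)
      (by have := haR 0 0 le_rfl hα.le; linarith)
  · intro k
    have hpow : ∀ i : ℕ, 0 < β ^ i := fun i => pow_pos hβ i
    have hpow1 : ∀ i : ℕ, β ^ i ≤ 1 := fun i => pow_le_one₀ hβ.le hβ1.le
    have ht0 : ∀ i : ℕ, 0 ≤ α * β ^ i := fun i => (mul_pos hα (hpow i)).le
    have htα : ∀ i : ℕ, α * β ^ i ≤ α := fun i => by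
      have := mul_le_mul_of_nonneg_left (hpow1 i) hα.le
      rwa [mul_one] at this
    refine ⟨vec ε (-σ k * (2 / 5)) (-1 / 5), fun i =>
      if 2 / 5 * (α * β ^ i) ≤ r k then
        vec (a k + ε * (α * β ^ i)) (σ k * (r k - 2 / 5 * (α * β ^ i)))
          ((r k - 2 / 5 * (α * β ^ i)) / 2)
      else
        vec (a k + ε * (α * β ^ i)) (-σ k * (3 / 5 * (2 / 5 * (α * β ^ i) - r k)))
          (3 / 5 * (2 / 5 * (α * β ^ i) - r k) / 2), n * k, ?_, ?_, ?_, ?_, ?_⟩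
    · rw [grad_lin, hneg]
      exact proj_cone (hσ k) (hr0 k) (by linarith [hrρ k]) (ha0 k) hε.le
        (haR k (r k) (hr0 k).le ((hrρ k).trans hρα))
    · intro i
      simp only
      split_ifs with h
      · exact proj_trial_in (hσ k) (by linarith [hrρ k]) (ha0 k) hε.le (ht0 i)
          (haR k _ (ht0 i) (htα i)) h
      · exact proj_trial_out (hσ k) (hr0 k).le (ha0 k) hε.le (ht0 i)
          (by linarith [htα i]) (haR k _ (ht0 i) (htα i)) (not_le.mp h).le
    · have hj : β ^ (n * k) = q ^ k := by rw [hq, pow_mul]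
      have e1 : 2 / 5 * (α * q ^ k) = s * r k := by
        rw [hr]
        linear_combination (-(q ^ k)) * hρs
      have hlt : ¬ 2 / 5 * (α * q ^ k) ≤ r k := by
        rw [e1]
        have := hr0 k
        nlinarith
      simp only
      rw [hj, if_neg hlt]
      rw [armijo_iff (hσ k) hc'def, e1]
      have := mul_le_mul_of_nonneg_right hs_acc (hr0 k).le
      linarith
    · intro i hi
      have e1 : 2 / 5 * (α * q ^ k) = s * r k := by
        rw [hr]
        linear_combination (-(q ^ k)) * hρs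
      have hb : q ^ k ≤ β ^ i * β := by
        rw [hq, ← pow_mul, ← pow_succ]
        exact pow_le_pow_of_le_one hβ.le hβ1.le hi
      have hτ : s * r k ≤ 2 / 5 * (α * β ^ i) * β := by
        rw [← e1]
        have := mul_le_mul_of_nonneg_left hb hα.le
        nlinarith
      have hlt : ¬ 2 / 5 * (α * β ^ i) ≤ r k := by
        intro hcon
        have h1 := mul_le_mul_of_nonneg_right hcon hβ.le
        have h2 := hr0 k
        nlinarith
      simp only
      rw [if_neg hlt, armijo_iff (hσ k) hc'def]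
      intro hcon
      have h1 := mul_le_mul_of_nonneg_right hcon hβ.le
      have h2 : (5 * c' + 3) * (s * r k) ≤ (5 * c' + 3) * (2 / 5 * (α * β ^ i) * β) :=
        mul_le_mul_of_nonneg_left hτ hD.le
      have h3 := mul_lt_mul_of_pos_right hs_rej (hr0 k)
      linarith
    · have hj : β ^ (n * k) = q ^ k := by rw [hq, pow_mul]
      have e1 : 2 / 5 * (α * q ^ k) = s * r k := by
        rw [hr]
        linear_combination (-(q ^ k)) * hρs
      have hlt : ¬ 2 / 5 * (α * q ^ k) ≤ r k := by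
        rw [e1]
        have := hr0 k
        nlinarith
      simp only
      rw [hj, if_neg hlt, e1]
      have e2 : 3 / 5 * (s * r k - r k) = r (k + 1) := by
        rw [hs, hr]
        ring
      have e3 : a k + ε * (α * q ^ k) = a (k + 1) := by
        rw [ha]
        field_simp
        ring
      have e4 : -σ k = σ (k + 1) := by
        rw [hσdef]
        ring
      rw [e2, e3, e4]
  · -- convergence
    have hqt : Tendsto (fun k : ℕ => q ^ k) atTop (𝓝 0) :=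
      tendsto_pow_atTop_nhds_zero_of_lt_one hq0.le hq1
    have t1 : Tendsto a atTop (𝓝 (ε * α / (1 - q))) := by
      have : Tendsto (fun k : ℕ => ε * α * (1 - q ^ k) / (1 - q)) atTop
          (𝓝 (ε * α * (1 - 0) / (1 - q))) :=
        ((hqt.const_sub 1).const_mul (ε * α)).div_const (1 - q)
      simpa using this
    have t2 : Tendsto r atTop (𝓝 0) := by
      simpa using hqt.const_mul ρ
    have t3 : Tendsto (fun k => σ k * r k) atTop (𝓝 0) := by
      apply squeeze_zero_norm (a := r) _ t2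
      intro k
      rw [Real.norm_eq_abs, sign_abs (hσ k) _ (hr0 k).le]
    have t4 : Tendsto (fun k => r k / 2) atTop (𝓝 0) := by
      simpa using t2.div_const 2
    exact (vec_continuous.tendsto (ε * α / (1 - q), 0, 0)).comp (t1.prodMk_nhds (t3.prodMk_nhds t4))
  · -- the limit is not stationary
    rintro ⟨-, hst⟩
    have hy : vec R 0 0 ∈ wedge R := by
      refine ⟨?_, ?_, ?_⟩
      · simp
      · rw [vec_two]; linarith
      · rw [vec_zero, abs_of_nonneg (by linarith)]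
    have h := hst _ (convex_mem_cone (wedge_convex R) hzX hy)
    rw [grad_lin, inner3] at h
    simp only [hz, PiLp.sub_apply, vec_zero, vec_one, vec_two] at h
    nlinarith

end Pool.Agent.Results.MP_7a7a2a_an.ArmijoJamming
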